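import Pool.Agent.H505R3.Asym8

/-!
# Values of `n ^ 2 + 1` without small prime factors, with an even number of prime factors

Let `E` be a property of positive integers such that `E (a b)` holds whenever neither `E a` nor `E b` holds. For all
large `X`, uniformly in `E`, at least `X ^ (1/3) / (log X) ^ 139` of the positive multiples `n ≤ X` of `8` are such that
`E (n ^ 2 + 1)` holds and `n ^ 2 + 1` is a product of at most `16000` primes, all of them larger than `X ^ (1/8000)`.
For instance, for every set `S` of primes, `E m` may say that the number of prime factors of `m` in `S`, counted with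
multiplicity, is even.
-/

set_option autoImplicit false

namespace Pool.Agent.Results.MP_7169d5_nt.EvenRoughValues

open Filter

/-- the positive multiples `n ≤ X` of `8` such that `n ^ 2 + 1` is a product of at most `16000` primes, all of them
larger than `X ^ (1/8000)`, and `E (n ^ 2 + 1)` -/
def RoughSet (X : ℕ) (E : ℕ → Prop) : Set ℕ :=
  {n : ℕ | 0 < n ∧ n ≤ X ∧ 8 ∣ n ∧ (n ^ 2 + 1).primeFactorsList.length ≤ 16000 ∧
    (∀ p : ℕ, p.Prime → p ∣ n ^ 2 + 1 → (X : ℝ) ^ ((1 : ℝ) / 8000) < p) ∧ E (n ^ 2 + 1)}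

open Classical in
theorem result : ∃ X₀ : ℕ,
    (∀ E : ℕ → Prop, (∀ a b : ℕ, a ≠ 0 → b ≠ 0 → ¬ E a → ¬ E b → E (a * b)) → ∀ X : ℕ, X₀ ≤ X →
      (X : ℝ) ^ ((1 : ℝ) / 3) / Real.log X ^ 139 ≤ ((RoughSet X E).ncard : ℝ)) ∧
    (∀ (S : Set ℕ) (X : ℕ), X₀ ≤ X →
      (X : ℝ) ^ ((1 : ℝ) / 3) / Real.log X ^ 139 ≤
        ((RoughSet X (fun m => Even ((m.primeFactorsList.filter (fun p => p ∈ S)).length))).ncard : ℝ)) := by
  obtain ⟨X1, h1⟩ := Pool.Agent.H505R3.main8
  have hev : ∀ᶠ X : ℕ in atTop, (2 : ℝ) ≤ (X : ℝ) ^ ((1 : ℝ) / 8000) :=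
    ((tendsto_rpow_atTop (by norm_num)).comp tendsto_natCast_atTop_atTop).eventually_ge_atTop _
  obtain ⟨X2, h2⟩ := eventually_atTop.1 hev
  have key : ∀ E : ℕ → Prop, (∀ a b : ℕ, a ≠ 0 → b ≠ 0 → ¬ E a → ¬ E b → E (a * b)) →
      ∀ X : ℕ, max (max X1 X2) 2 ≤ X →
      (X : ℝ) ^ ((1 : ℝ) / 3) / Real.log X ^ 139 ≤ ((RoughSet X E).ncard : ℝ) := by
    intro E hE X hX
    have hX1 : X1 ≤ X := ((le_max_left _ _).trans (le_max_left _ _)).trans hX
    have hX2 : X2 ≤ X := ((le_max_right _ _).trans (le_max_left _ _)).trans hX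
    have hX3 : 2 ≤ X := (le_max_right _ _).trans hX
    refine (h1 E hE X hX1).trans ?_
    have hfin : (RoughSet X E).Finite := (Set.finite_Iic X).subset fun _ hn => hn.2.1
    refine Nat.cast_le.2 (Set.ncard_le_ncard ?_ hfin)
    rintro n ⟨a1, a2, a3, a4, a5⟩
    refine ⟨a2, a1, a3, ?_, a4, a5⟩
    by_contra hcon
    push Not at hcon
    have hXr : (2 : ℝ) ≤ X := by exact_mod_cast hX3
    have hX0 : (0 : ℝ) < X := by linarith
    set y : ℝ := (X : ℝ) ^ ((1 : ℝ) / 8000) with hy
    have hy2 : (2 : ℝ) ≤ y := h2 X hX2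
    have hy0 : 0 < y := by linarith
    have hpow : y ^ 16000 = (X : ℝ) ^ 2 := by
      rw [hy, ← Real.rpow_natCast, ← Real.rpow_mul hX0.le, ← Real.rpow_natCast]
      congr 1
      norm_num
    have hn0 : n ^ 2 + 1 ≠ 0 := by positivity
    have hprod : ∀ l : List ℕ, (∀ p ∈ l, y ≤ (p : ℝ)) → y ^ l.length ≤ ((l.prod : ℕ) : ℝ) := by
      intro l
      induction l with
      | nil => intro _; simp
      | cons p l ih =>
        intro hl
        rw [List.length_cons, List.prod_cons, pow_succ, Nat.cast_mul, mul_comm]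
        exact mul_le_mul (hl p (by simp)) (ih fun q hq => hl q (by simp [hq])) (by positivity)
          (Nat.cast_nonneg _)
    have h3 := hprod (n ^ 2 + 1).primeFactorsList (fun p hp => by
      have h4 := Nat.prime_of_mem_primeFactorsList hp
      have h5 := Nat.dvd_of_mem_primeFactorsList hp
      exact (a4 p h4 h5).le)
    rw [Nat.prod_primeFactorsList hn0] at h3
    have h4 : y ^ 16001 ≤ y ^ (n ^ 2 + 1).primeFactorsList.length :=
      pow_le_pow_right₀ (by linarith) (by omega)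
    rw [pow_succ, hpow] at h4
    have h5 : ((n ^ 2 + 1 : ℕ) : ℝ) ≤ (X : ℝ) ^ 2 + 1 := by
      push_cast
      have : (n : ℝ) ≤ X := by exact_mod_cast a1
      have h0 : (0 : ℝ) ≤ n := Nat.cast_nonneg _
      nlinarith
    nlinarith
  refine ⟨max (max X1 X2) 2, key, fun S X hX => key _ ?_ X hX⟩
  intro a b ha hb h3 h4
  have hperm := Nat.perm_primeFactorsList_mul ha hb
  have h5 := (hperm.filter (fun p => decide (p ∈ S))).length_eq
  rw [List.filter_append, List.length_append] at h5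
  simp only [Nat.not_even_iff_odd] at h3 h4
  rw [h5]
  exact h3.add_odd h4

end Pool.Agent.Results.MP_7169d5_nt.EvenRoughValues
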