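import Pool.Agent.Y880.RS.G5b

/-!
# Primes `a² + b` in an arbitrary dense set of primes, `a` in short progressions inside an arbitrary dense set

Let `k ≥ 2`, `δ > 0` and `0 < ε ≤ 1`. There is `B` such that for all large `X`, all `N` with `(log X)^B ≤ N ≤ X^(1/8)`,
EVERY set `T` of at least `δ N` integers in `[1, N]` and EVERY set `P` of at least `δ X / log X` primes up to `X`, a
positive proportion of all integers `1 ≤ b ≤ X` has the following property: `T` contains a `k`-term arithmetic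
progression, of difference at most `N^ε (log X)^B`, for all terms `a` of which `a² + b` is a prime of the set `P`.
-/

set_option autoImplicit false

namespace Pool.Agent.Results.MP_7169d5_nt.PolylogProgressions

open Finset Polynomial

/-- `T` contains the `k` terms of an arithmetic progression with difference between `1` and `D`, and `a² + b` belongs to
`P` for each of these terms `a` -/
def Good (T P : Finset ℕ) (k : ℕ) (D : ℝ) (b : ℕ) : Prop :=
  ∃ n r : ℕ, 1 ≤ r ∧ (r : ℝ) ≤ D ∧ ∀ j < k, n + j * r ∈ T ∧ (n + j * r) ^ 2 + b ∈ P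

open Classical in
/-- **A positive proportion of all shifts `b`.** -/
theorem result (k : ℕ) (hk : 2 ≤ k) (δ ε : ℝ) (hδ : 0 < δ) (hε : 0 < ε) (hε1 : ε ≤ 1) :
    ∃ B : ℕ, ∃ c : ℝ, 0 < c ∧ ∃ X₀ : ℕ, ∀ X N : ℕ, X₀ ≤ X → Real.log X ^ B ≤ N → N ^ 8 ≤ X →
      ∀ T ⊆ Icc 1 N, δ * N ≤ T.card →
      ∀ P ⊆ Icc 1 X, (∀ p ∈ P, p.Prime) → δ * (X / Real.log X) ≤ P.card →
        c * X ≤ ((Icc 1 X).filter (fun b => Good T P k ((N : ℝ) ^ ε * Real.log X ^ B) b)).card := by
  have hd : (X ^ 2 : ℤ[X]).natDegree = 2 := natDegree_X_pow 2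
  obtain ⟨B, c, hc, X₀, h⟩ := Pool.Agent.Y880.RS.G5.g5 (X ^ 2 : ℤ[X]) (by rw [hd]; norm_num) k hk δ ε hδ hε hε1
  refine ⟨B, c, hc, X₀, fun X N hX hN hNX T hT hTc P hP hPp hPc => ?_⟩
  obtain ⟨G, hG, hGc, hGb⟩ := h X N hX hN (by rw [hd]; exact hNX) T hT hTc P hP hPp hPc
  refine hGc.trans ?_
  have hsub : G ⊆ (Icc 1 X).filter (fun b => Good T P k ((N : ℝ) ^ ε * Real.log X ^ B) b) := by
    intro b hb
    rw [mem_filter]
    obtain ⟨n, r, h2, h3, h4⟩ := hGb b hb
    refine ⟨hG hb, n, r, h2, h3, fun j hj => ?_⟩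
    obtain ⟨h5, p, hp, hpe⟩ := h4 j hj
    refine ⟨h5, ?_⟩
    have h6 : p = (n + j * r) ^ 2 + b := by
      rw [eval_pow, eval_X] at hpe
      exact_mod_cast hpe
    rwa [← h6]
  exact_mod_cast card_le_card hsub

end Pool.Agent.Results.MP_7169d5_nt.PolylogProgressions
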