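import Pool.Agent.Q48.RD.Fam
import Pool.Agent.TH464.PW.Quad

/-!
# `a ^ 2 + 1` and constellations of Gaussian almost primes on horizontal lines, for `a` with restricted digits

For natural numbers `u`, `v` and `a` the number `(a + u) ^ 2 + v ^ 2` is the norm of the Gaussian integer `a + (u + v i)`; for
`u = 0`, `v = 1` it is `a ^ 2 + 1`. A pattern is given by `k` pairs `(u_j, v_j)`. It is admissible if no prime divides the product of
the norms for all `a`.

Let `g ≥ 2` be a base and `K` a large number of digits. For every `i < K` let `A i` be an arbitrary set of digits, such that the number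
`|A 0| ⋯ |A (K - 1)|` of the integers `t < g ^ K` whose `i`-th digit belongs to `A i` for all `i < K` is at least `exp (- c K) g ^ K`,
where `c > 0` does not depend on the base (`Rich`).

(1) For all admissible patterns with `u_j, v_j ≤ g ^ (E K)` and all `N ≤ g ^ (E K)` (so the numbers `u_j`, `v_j` and `N` may be as large
as an arbitrary power of the length of the interval `[N, N + g ^ K)`), the number of the `a = N + t` with these `t` for which all the
norms have at most `r` prime factors, all larger than `g ^ (K / r)`, is at least `κ V |A 0| ⋯ |A (K - 1)|`, if there is a digit `d` in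
`A 0` such that all norms are prime to `g` at `a = N + d`; the number of the `a = N + t` for which all norms are primes is at most
`C V |A 0| ⋯ |A (K - 1)|`. Here `V` is the product of `1 - ν (p) / p` over the primes `p ≤ g ^ K`, where `ν (p)` is the number of the
`a` modulo `p` such that `p` divides one of the norms: the expected order. The constants do not depend on the pattern, on `N` and on
the sets `A i`.

(2) For a fixed admissible pattern of different pairs with all `v_j ≥ 1`, for example for `a ^ 2 + 1` alone or together with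
`(a + u) ^ 2 + v ^ 2`, the same holds with `1 / K ^ k` in the place of `V`.
-/

set_option autoImplicit false

namespace Pool.Agent.Results.MP_7169d5_nt.RestrictedDigits

open Filter Finset Polynomial
open Pool.Agent.Q315.RD Pool.Agent.Q48.RD

/-- The norm of the Gaussian integer `(a + u) + v i`. -/
def gnorm (u v a : ℕ) : ℕ := (a + u) ^ 2 + v ^ 2

/-- No prime divides, for every `a`, one of the norms of `(a + u_j) + v_j i`. -/
def Admissible {k : ℕ} (u v : Fin k → ℕ) : Prop := ∀ p : ℕ, p.Prime → ∃ a : ℕ, ∀ j, ¬ p ∣ gnorm (u j) (v j) a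

/-- The product of `1 - ν (p) / p` over the primes `p ≤ y`, `ν (p)` the number of the `a < p` such that `p` divides the norm of one of
the numbers `(a + u_j) + v_j i`. -/
noncomputable def V {k : ℕ} (u v : Fin k → ℕ) (y : ℕ) : ℝ := density (fun j => gnorm (u j) (v j)) y

/-- the polynomials -/
noncomputable def P {k : ℕ} (u v : Fin k → ℕ) (j : Fin k) : ℤ[X] :=
  Pool.Agent.TH464.PW.quad 1 (2 * (u j : ℤ)) ((u j : ℤ) ^ 2 + (v j : ℤ) ^ 2)

lemma P_eval {k : ℕ} (u v : Fin k → ℕ) (j : Fin k) (n : ℕ) : (P u v j).eval (n : ℤ) = (gnorm (u j) (v j) n : ℤ) := by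
  unfold P gnorm
  rw [Pool.Agent.TH464.PW.quad_eval]
  push_cast
  ring

lemma P_deg {k : ℕ} (u v : Fin k → ℕ) (j : Fin k) : (P u v j).natDegree ≤ 2 :=
  (Pool.Agent.TH464.PW.quad_deg _ _ _ one_ne_zero).le

lemma low (u v N t : ℕ) : t ≤ gnorm u v (N + t) := by
  unfold gnorm
  have h1 : N + t + u ≤ (N + t + u) ^ 2 := Nat.le_self_pow (by norm_num) _
  omega

lemma high {E K g N u v t : ℕ} (hg : 2 ≤ g) (hK : 1 ≤ K) (hN : N ≤ g ^ (E * K)) (hu : u ≤ g ^ (E * K)) (hv : v ≤ g ^ (E * K))
    (ht : t < g ^ K) : gnorm u v (N + t) ≤ g ^ ((2 * E + 6) * K) := by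
  have hg1 : 1 ≤ g := by omega
  have h1 : g ^ (E * K) ≤ g ^ ((E + 1) * K) := Nat.pow_le_pow_right hg1 (by nlinarith)
  have h2 : g ^ K ≤ g ^ ((E + 1) * K) := Nat.pow_le_pow_right hg1 (by nlinarith)
  have h3 : 10 ≤ g ^ (4 * K) := by
    calc 10 ≤ 2 ^ 4 := by norm_num
      _ ≤ 2 ^ (4 * K) := Nat.pow_le_pow_right (by norm_num) (by omega)
      _ ≤ g ^ (4 * K) := Nat.pow_le_pow_left hg _
  unfold gnorm
  calc (N + t + u) ^ 2 + v ^ 2 ≤ (3 * g ^ ((E + 1) * K)) ^ 2 + (g ^ ((E + 1) * K)) ^ 2 :=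
        Nat.add_le_add (Nat.pow_le_pow_left (by omega) 2) (Nat.pow_le_pow_left (by omega) 2)
    _ = 10 * (g ^ ((E + 1) * K)) ^ 2 := by ring
    _ ≤ g ^ (4 * K) * (g ^ ((E + 1) * K)) ^ 2 := Nat.mul_le_mul_right _ h3
    _ = g ^ ((2 * E + 6) * K) := by rw [← pow_mul, ← pow_add]; congr 1; ring

/-- A fixed admissible pattern is a system in the sense of the starting library. -/
lemma sys {k : ℕ} (u v : Fin k → ℕ) (hv : ∀ j, 1 ≤ v j) (hinj : ∀ i j, u i = u j → v i = v j → i = j) (hadm : Admissible u v) :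
    Pool.Agent.W123.RU.Poly.Sys (P u v) where
  irr j := by
    apply Pool.Agent.TH464.PW.quad_irr _ _ _ one_ne_zero
    · intro p hp h
      have h1 : (p : ℤ) ∣ ((1 : ℕ) : ℤ) := by exact_mod_cast h.1
      exact hp.one_lt.ne' (Nat.dvd_one.1 (Int.natCast_dvd_natCast.1 h1))
    · rintro ⟨z, hz⟩
      have h1 : (1 : ℤ) ≤ v j := by exact_mod_cast hv j
      nlinarith [mul_self_nonneg z]
  deg j := by
    unfold P
    rw [Pool.Agent.TH464.PW.quad_deg _ _ _ one_ne_zero]
    norm_num
  lead j := by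
    unfold P
    rw [Pool.Agent.TH464.PW.quad_lead _ _ _ one_ne_zero]
    norm_num
  inj := by
    intro i j hij
    have h0 : (P u v i).eval ((0 : ℕ) : ℤ) = (P u v j).eval ((0 : ℕ) : ℤ) := by rw [hij]
    have h1 : (P u v i).eval ((1 : ℕ) : ℤ) = (P u v j).eval ((1 : ℕ) : ℤ) := by rw [hij]
    rw [P_eval, P_eval] at h0 h1
    unfold gnorm at h0 h1
    have h0' : (0 + u i) ^ 2 + v i ^ 2 = (0 + u j) ^ 2 + v j ^ 2 := by exact_mod_cast h0
    have h1' : (1 + u i) ^ 2 + v i ^ 2 = (1 + u j) ^ 2 + v j ^ 2 := by exact_mod_cast h1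
    have hu : u i = u j := by nlinarith
    refine hinj i j hu ?_
    rw [hu] at h0'
    have h2 : v i ^ 2 = v j ^ 2 := by omega
    exact Nat.pow_left_injective (n := 2) (by norm_num) h2
  adm p hp := by
    obtain ⟨a, ha⟩ := hadm p hp
    refine ⟨a, fun j hd => ha j ?_⟩
    rw [P_eval] at hd
    exact Int.natCast_dvd_natCast.1 hd

/-- **`a ^ 2 + 1` and constellations of Gaussian almost primes, for `a` with restricted digits in all short intervals.** -/
theorem result (k E : ℕ) :
    ∃ c : ℝ, 0 < c ∧ ∃ r₀ : ℕ, 2 ≤ r₀ ∧ ∀ r : ℕ, r₀ ≤ r → ∀ g : ℕ, 2 ≤ g →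
      (∃ κ C : ℝ, 0 < κ ∧ 0 < C ∧
        ∀ᶠ K : ℕ in atTop, ∀ u v : Fin k → ℕ, (∀ j, u j ≤ g ^ (E * K) ∧ v j ≤ g ^ (E * K)) → Admissible u v →
          ∀ N : ℕ, N ≤ g ^ (E * K) → ∀ A : ℕ → Finset ℕ, Rich c g K A →
            ((∃ d ∈ A 0, ∀ j, (gnorm (u j) (v j) (N + d)).Coprime g) →
              κ * V u v (g ^ K) * choices K A ≤
                count g K A fun t => ∀ j, AlmostPrime (g ^ K) r (gnorm (u j) (v j) (N + t))) ∧
            (count g K A (fun t => ∀ j, (gnorm (u j) (v j) (N + t)).Prime) : ℝ) ≤ C * V u v (g ^ K) * choices K A) ∧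
      ∀ u v : Fin k → ℕ, (∀ j, 1 ≤ v j) → (∀ i j, u i = u j → v i = v j → i = j) → Admissible u v →
        ∃ κ C : ℝ, 0 < κ ∧ 0 < C ∧ ∀ᶠ K : ℕ in atTop, ∀ N : ℕ, N ≤ g ^ (E * K) → ∀ A : ℕ → Finset ℕ, Rich c g K A →
            ((∃ d ∈ A 0, ∀ j, (gnorm (u j) (v j) (N + d)).Coprime g) →
              κ * choices K A / (K : ℝ) ^ k ≤
                count g K A fun t => ∀ j, AlmostPrime (g ^ K) r (gnorm (u j) (v j) (N + t))) ∧
            (count g K A (fun t => ∀ j, (gnorm (u j) (v j) (N + t)).Prime) : ℝ) ≤ C * choices K A / (K : ℝ) ^ k := by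
  obtain ⟨c, hc, r₀, hr₀, h⟩ := famN k 2 (2 * (E + 1) + 6)
  refine ⟨c, hc, r₀, hr₀, fun r hr g hg => ?_⟩
  obtain ⟨κ, C, hκ, hC, h1⟩ := h r hr g hg
  have main : ∀ᶠ K : ℕ in atTop, ∀ u v : Fin k → ℕ, (∀ j, u j ≤ g ^ ((E + 1) * K) ∧ v j ≤ g ^ ((E + 1) * K)) →
          Admissible u v → ∀ N : ℕ, N ≤ g ^ ((E + 1) * K) → ∀ A : ℕ → Finset ℕ, Rich c g K A →
            ((∃ d ∈ A 0, ∀ j, (gnorm (u j) (v j) (N + d)).Coprime g) →
              κ * V u v (g ^ K) * choices K A ≤
                count g K A fun t => ∀ j, AlmostPrime (g ^ K) r (gnorm (u j) (v j) (N + t))) ∧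
            (count g K A (fun t => ∀ j, (gnorm (u j) (v j) (N + t)).Prime) : ℝ) ≤ C * V u v (g ^ K) * choices K A := by
    filter_upwards [h1, eventually_ge_atTop 1] with K hK hK1
    intro u v huv hadm N hN A hA
    exact hK (P u v) (fun j => gnorm (u j) (v j)) (P_eval u v) (P_deg u v) hadm N
      (fun t _ j => low _ _ _ _) (fun t ht j => high hg hK1 hN (huv j).1 (huv j).2 ht) A hA
  have hpow : ∀ K : ℕ, g ^ (E * K) ≤ g ^ ((E + 1) * K) := fun K => Nat.pow_le_pow_right (by omega) (by nlinarith)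
  refine ⟨⟨κ, C, hκ, hC, ?_⟩, fun u v hv hinj hadm => ?_⟩
  · filter_upwards [main] with K hK
    intro u v huv hadm N hN
    exact hK u v (fun j => ⟨(huv j).1.trans (hpow K), (huv j).2.trans (hpow K)⟩) hadm N (hN.trans (hpow K))
  obtain ⟨w, W, hw, hW, h2⟩ := order (P u v) (sys u v hv hinj hadm) g hg
  refine ⟨κ * w, C * W, by positivity, by positivity, ?_⟩
  filter_upwards [main, h2, eventually_ge_atTop (1 + ∑ j, (u j + v j))] with K hK hV hK1
  intro N hN A hA
  have hden := density_fam (P u v) (fun j => gnorm (u j) (v j)) (P_eval u v) (g ^ K)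
  rw [hden] at hV
  have hcs : (0 : ℝ) ≤ choices K A := Nat.cast_nonneg _
  have hKg : K < g ^ ((E + 1) * K) :=
    lt_of_lt_of_le (Nat.lt_pow_self (by omega)) (Nat.pow_le_pow_right (by omega) (by nlinarith))
  have huK : ∀ j, u j + v j ≤ K := fun j => by
    have := single_le_sum (f := fun j => u j + v j) (fun _ _ => Nat.zero_le _) (mem_univ j)
    omega
  obtain ⟨h3, h4⟩ := hK u v (fun j => by have := huK j; omega) hadm N (hN.trans (hpow K)) A hA
  constructor
  · intro hd
    refine le_trans ?_ (h3 hd)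
    calc κ * w * choices K A / (K : ℝ) ^ k = κ * (w / (K : ℝ) ^ k) * choices K A := by ring
      _ ≤ κ * V u v (g ^ K) * choices K A :=
          mul_le_mul_of_nonneg_right (mul_le_mul_of_nonneg_left hV.1 hκ.le) hcs
  · refine h4.trans ?_
    calc C * V u v (g ^ K) * choices K A ≤ C * (W / (K : ℝ) ^ k) * choices K A :=
          mul_le_mul_of_nonneg_right (mul_le_mul_of_nonneg_left hV.2 hC.le) hcs
      _ = C * W * choices K A / (K : ℝ) ^ k := by ring

end Pool.Agent.Results.MP_7169d5_nt.RestrictedDigits
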