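import Pool.Agent.TH204.WR.W14
import Pool.Agent.Q319.DR.Fam
import Pool.Agent.Q56.DR.Seq

/-!
# Primes of the form `a² + b` for ALL `b` in windows at multiples and dilates of almost all real numbers

The formula of Hardy and Littlewood for the number of the primes `a² + b`, `a` in an interval of a length of the order
of `√b` up to powers of `log b`, holds

* for `0 < θ < 1` and all real `y ∈ [N ^ (1 - θ), 2 N ^ (1 - θ)]` outside a set of measure at most `N ^ (1 - θ - κ₀)`: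
  for ALL integers `b` in the windows of radius `log ^ A N` around the multiples `k y`, `k ≤ N ^ θ`, with at most
  `N ^ θ / log ^ U N` exceptional `k`;
* for an arbitrary sequence `v` of natural numbers with `v k ≥ k ^ c` and almost every real `α > 0`: for ALL integers `b`
  in the windows of radius `log ^ A (v k)` around `α v k`, for all `k ≤ K` with at most `K / log ^ U K` exceptions;
* if `v k ≥ exp (k ^ δ)`, for ALL large `k`.

From Mathlib: `volume`: the Lebesgue measure; `∀ᵐ α : ℝ`: for almost all real `α`; `∀ᶠ k in atTop`: for all large `k`.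
The theorem about almost all `b` is from the starting files (`Pool.Agent.TH204.WR.both`), as well as the count of the
elements of arbitrary sets of integers in intervals at multiples of real numbers (`Pool.Agent.H438R2.DL`).
-/

set_option autoImplicit false

namespace Pool.Agent.Results.MP_7169d5_nt.ShiftsAtRealMultiples

open Finset MeasureTheory Filter

/-- The number of the residues `a` modulo `p` such that `p` divides `a² + b`. -/
def rho (b p : ℕ) : ℕ := ((range p).filter (fun a : ℕ => p ∣ a ^ 2 + b)).card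

/-- The product over the primes `p ≤ z` of `(1 - ρ(p) / p) / (1 - 1 / p)`; for an odd prime `p` this factor is
`1 - χ(p) / (p - 1)`, where `χ(p)` is the Legendre symbol of `-b` modulo `p`, and for `p = 2` it is `1`. -/
noncomputable def S (b z : ℕ) : ℝ :=
  ∏ p ∈ (Icc 1 z).filter Nat.Prime, (1 - (rho b p : ℝ) / p) / (1 - 1 / (p : ℝ))

/-- The number of the `a` with `m < a ≤ n` such that `a² + b` is prime. -/
def primes (b m n : ℕ) : ℕ := ((Ioc m n).filter (fun a => (a ^ 2 + b).Prime)).card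

/-- The sum of `1 / log (a² + b)` over `m < a ≤ n`. -/
noncomputable def M (b m n : ℕ) : ℝ := ∑ a ∈ Ioc m n, 1 / Real.log ((a ^ 2 + b : ℕ) : ℝ)

/-- The number `b` is good: for all `z` with `exp ((log log b) ^ 2) ≤ z ≤ b ^ (1/4)` and all `m < n` with
`n ≤ √b log ^ C b`, `n - m ≥ √b / log ^ C b`, the number of the primes `a² + b` with `m < a ≤ n` is the sum of
`S b z / log (a² + b)` over these `a`, up to a relative error of at most `ε`. -/
def Good (ε : ℝ) (C b : ℕ) : Prop :=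
  ∀ z : ℕ, Real.exp (Real.log (Real.log b) ^ 2) ≤ z → z ^ 4 ≤ b →
    ∀ m n : ℕ, m < n → (n : ℝ) ≤ √b * Real.log b ^ C → √b / Real.log b ^ C ≤ (n : ℝ) - m →
      |(primes b m n : ℝ) - S b z * M b m n| ≤ ε * (S b z * M b m n)

/-- All natural numbers at a distance of at most `w` from the real number `x` are good. -/
def AllGood (ε : ℝ) (C : ℕ) (w x : ℝ) : Prop := ∀ b : ℕ, |(b : ℝ) - x| ≤ w → Good ε C b

open Classical in
/-- The number of the `k` in `{1, ..., K}` which do not have the property `P`. -/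
noncomputable def exceptions (K : ℕ) (P : ℕ → Prop) : ℕ := ((Icc 1 K).filter (fun k => ¬ P k)).card

open Polynomial in
lemma eval_sq (m t : ℤ) : (X ^ 2 : ℤ[X]).eval m + t = m ^ 2 + t := by simp

open Polynomial in
lemma rho_eq (b p : ℕ) : Pool.Agent.TH204.WR.rho (X ^ 2 : ℤ[X]) (b : ℤ) p = rho b p := by
  unfold Pool.Agent.TH204.WR.rho rho
  congr 1
  apply filter_congr
  intro a _
  rw [eval_sq]
  constructor
  · intro h
    exact_mod_cast h
  · intro h
    exact_mod_cast h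

lemma rho_lt (b p : ℕ) (hp : p.Prime) : rho b p < p := by
  unfold rho
  have h : (range p).filter (fun a : ℕ => p ∣ a ^ 2 + b) ⊂ range p := by
    rw [filter_ssubset]
    by_cases h0 : p ∣ b
    · refine ⟨1, mem_range.2 hp.one_lt, fun h1 => ?_⟩
      have h2 : p ∣ 1 := by
        rw [one_pow] at h1
        exact (Nat.dvd_add_iff_left h0).2 h1
      exact hp.one_lt.ne' (Nat.dvd_one.1 h2)
    · exact ⟨0, mem_range.2 hp.pos, fun h1 => h0 (by simpa using h1)⟩
  simpa using card_lt_card h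

open Polynomial in
lemma S_eq (b z : ℕ) : Pool.Agent.TH204.WR.hh (X ^ 2 : ℤ[X]) (b : ℤ) z = S b z := by
  unfold Pool.Agent.TH204.WR.hh S Pool.Agent.H373R2.T7.Vz Pool.Agent.H373R2.T7.pz
  rw [prod_div_distrib, div_eq_inv_mul]
  congr 1
  apply prod_congr rfl
  intro p _
  rw [rho_eq]

open Polynomial in
lemma primes_eq (b m n : ℕ) :
    ((Ioc (m : ℤ) n).filter (fun i : ℤ => ((X ^ 2 : ℤ[X]).eval i + (b : ℤ)).natAbs.Prime)).card = primes b m n := by
  unfold primes
  symm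
  apply card_bij (fun (a : ℕ) _ => (a : ℤ))
  · intro a ha
    rw [mem_filter, mem_Ioc] at ha ⊢
    refine ⟨⟨by exact_mod_cast ha.1.1, by exact_mod_cast ha.1.2⟩, ?_⟩
    rw [eval_sq]
    have : ((a : ℤ) ^ 2 + (b : ℤ)).natAbs = a ^ 2 + b := by
      have h : ((a : ℤ) ^ 2 + (b : ℤ)) = ((a ^ 2 + b : ℕ) : ℤ) := by push_cast; ring
      rw [h, Int.natAbs_natCast]
    rw [this]
    exact ha.2
  · intro a _ a' _ h
    exact_mod_cast h
  · intro i hi
    rw [mem_filter, mem_Ioc] at hi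
    obtain ⟨a, rfl⟩ : ∃ a : ℕ, i = (a : ℤ) := ⟨i.toNat, by omega⟩
    refine ⟨a, ?_, rfl⟩
    rw [mem_filter, mem_Ioc]
    refine ⟨⟨by exact_mod_cast hi.1.1, by exact_mod_cast hi.1.2⟩, ?_⟩
    have h2 := hi.2
    rw [eval_sq] at h2
    have : ((a : ℤ) ^ 2 + (b : ℤ)).natAbs = a ^ 2 + b := by
      have h : ((a : ℤ) ^ 2 + (b : ℤ)) = ((a ^ 2 + b : ℕ) : ℤ) := by push_cast; ring
      rw [h, Int.natAbs_natCast]
    rwa [this] at h2

open Polynomial in
lemma M_eq (b m n : ℕ) :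
    ∑ i ∈ Ioc (m : ℤ) n, Pool.Agent.TH892.SW.wt ((X ^ 2 : ℤ[X]).eval i + (b : ℤ)).natAbs = M b m n := by
  unfold M
  symm
  apply sum_bij (fun (a : ℕ) _ => (a : ℤ))
  · intro a ha
    rw [mem_Ioc] at ha ⊢
    exact ⟨by exact_mod_cast ha.1, by exact_mod_cast ha.2⟩
  · intro a _ a' _ h
    exact_mod_cast h
  · intro i hi
    rw [mem_Ioc] at hi
    refine ⟨i.toNat, ?_, by omega⟩
    rw [mem_Ioc]
    omega
  · intro a _
    rw [eval_sq]
    have : ((a : ℤ) ^ 2 + (b : ℤ)).natAbs = a ^ 2 + b := by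
      have h : ((a : ℤ) ^ 2 + (b : ℤ)) = ((a ^ 2 + b : ℕ) : ℤ) := by push_cast; ring
      rw [h, Int.natAbs_natCast]
    rw [this]
    rfl

/-- the thresholds -/
lemma thr (B C U : ℕ) : ∃ N₀ : ℕ, ∀ N : ℕ, N₀ ≤ N → 16 ≤ Real.log N ∧
    Real.log N ^ U ≤ (N : ℝ) ^ (1 / 2 : ℝ) ∧ Real.log N ^ (B + C + U) ≤ (N : ℝ) ^ (1 / 2 : ℝ) ∧
    Real.log N ^ B ≤ Real.exp (Real.log (Real.log N / 2) ^ 2) := by
  have e1 : ∀ᶠ Y : ℝ in atTop, 16 ≤ Real.log Y := Pool.Agent.Q319.DR.ev_log _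
  have e2 : ∀ᶠ Y : ℝ in atTop, 1 * Real.log Y ^ U ≤ Y ^ (1 / 2 : ℝ) := Pool.Agent.Q319.DR.ev_pow _ (by norm_num) _ _
  have e3 : ∀ᶠ Y : ℝ in atTop, 1 * Real.log Y ^ (B + C + U) ≤ Y ^ (1 / 2 : ℝ) :=
    Pool.Agent.Q319.DR.ev_pow _ (by norm_num) _ _
  have e4 : ∀ᶠ Y : ℝ in atTop, 2 * (B : ℝ) + 4 ≤ Real.log (Real.log Y) :=
    (Real.tendsto_log_atTop.comp Real.tendsto_log_atTop).eventually_ge_atTop _
  obtain ⟨N₀, h⟩ := (tendsto_natCast_atTop_atTop.eventually (e1.and (e2.and (e3.and e4)))).exists_forall_of_atTop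
  refine ⟨N₀, fun N hN => ?_⟩
  obtain ⟨g1, g2, g3, g4⟩ := h N hN
  rw [one_mul] at g2 g3
  refine ⟨g1, g2, g3, ?_⟩
  obtain ⟨L, hL⟩ : ∃ L, L = Real.log (N : ℝ) := ⟨_, rfl⟩
  rw [← hL] at g1 g4 ⊢
  have hL0 : 0 < L := by linarith
  have h1 : Real.log (L / 2) = Real.log L - Real.log 2 := Real.log_div hL0.ne' (by norm_num)
  have h2 : Real.log 2 ≤ 1 := by have := Real.log_two_lt_d9; linarith
  have hB : (0 : ℝ) ≤ B := Nat.cast_nonneg _
  have h3 : Real.log L / 2 ≤ Real.log (L / 2) := by rw [h1]; linarith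
  calc L ^ B = Real.exp (B * Real.log L) := by rw [Real.exp_nat_mul, Real.exp_log hL0]
    _ ≤ Real.exp (Real.log (L / 2) ^ 2) := by
        apply Real.exp_le_exp.2
        have h4 : (Real.log L / 2) ^ 2 ≤ Real.log (L / 2) ^ 2 := pow_le_pow_left₀ (by linarith) h3 2
        nlinarith

open Polynomial in
lemma sparse (ε : ℝ) (hε : 0 < ε) (C : ℕ) : Pool.Agent.Q319.DR.Sparse (fun _ b => ¬ Good ε C b) := by
  classical
  apply Pool.Agent.Q319.DR.sparse_own
  intro U
  obtain ⟨B, X₀, h0⟩ := Pool.Agent.TH204.WR.both 1 le_rfl (X ^ 2 : ℤ[X]) (by rw [natDegree_X_pow]) U (U + 3 * C + 1) ε hε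
  obtain ⟨N₁, h1⟩ := thr B C U
  refine ⟨X₀ + N₁ + 2, fun N hN T hT hTb => ?_⟩
  obtain ⟨Bad, hB1, hB2, hB3⟩ := h0 N (by omega)
  obtain ⟨t1, t2, t3, t4⟩ := h1 N (by omega)
  refine le_trans ?_ hB2
  apply Nat.cast_le.2
  apply card_le_card_of_injOn (fun b : ℕ => (b : ℤ))
  · intro b hb
    obtain ⟨hb1, hb2⟩ := hTb b hb
    have hbN := mem_Icc.1 (hT hb)
    by_contra hcon
    apply hb2
    obtain ⟨L, hL⟩ : ∃ L, L = Real.log (N : ℝ) := ⟨_, rfl⟩
    obtain ⟨l, hl⟩ : ∃ l, l = Real.log (b : ℝ) := ⟨_, rfl⟩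
    have hNr : (0 : ℝ) < N := by exact_mod_cast (by omega : 0 < N)
    have hbr : (0 : ℝ) < b := by exact_mod_cast hbN.1
    have hbNr : (b : ℝ) ≤ N := by exact_mod_cast hbN.2
    rw [← hL] at hb1 t1 t2 t3 t4
    have hL0 : 0 < L := by linarith
    have hL1 : 1 ≤ L := by linarith
    have hlL : l ≤ L := by rw [hl, hL]; exact Real.log_le_log hbr hbNr
    -- `b ≥ √N`
    have hsq : (N : ℝ) ^ (1 / 2 : ℝ) * (N : ℝ) ^ (1 / 2 : ℝ) = N := by
      rw [← Real.rpow_add hNr]
      norm_num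
    have hs0 : 0 < (N : ℝ) ^ (1 / 2 : ℝ) := by positivity
    have hbs : (N : ℝ) ^ (1 / 2 : ℝ) ≤ b := by
      have h2 : (N : ℝ) ≤ b * (N : ℝ) ^ (1 / 2 : ℝ) := hb1.trans (mul_le_mul_of_nonneg_left t2 hbr.le)
      nlinarith
    have hl2 : L / 2 ≤ l := by
      have h2 := Real.log_le_log hs0 hbs
      rw [Real.log_rpow hNr, ← hL, ← hl] at h2
      linarith
    have hl0 : 0 < l := by linarith
    have hl1 : 1 ≤ l := by linarith
    intro z hz1 hz2 m n hmn hn1 hn2
    rw [← hl] at hz1 hn1 hn2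
    have hz0 : 1 ≤ z := by
      by_contra h
      have : z = 0 := by omega
      rw [this] at hz1
      have := Real.exp_pos (Real.log l ^ 2)
      push_cast at hz1
      linarith
    have hbm : (b : ℤ) ∈ Icc (-(N : ℤ)) N := by
      rw [mem_Icc]
      constructor <;> omega
    have hbig : √(N : ℝ) ≤ √(b : ℝ) * L ^ U := by
      have h2 : √(N : ℝ) ≤ √((b : ℝ) * L ^ U) := Real.sqrt_le_sqrt hb1
      rw [Real.sqrt_mul hbr.le] at h2
      refine h2.trans (mul_le_mul_of_nonneg_left ?_ (Real.sqrt_nonneg _))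
      rw [Real.sqrt_le_left (by positivity)]
      have : 1 ≤ L ^ U := one_le_pow₀ hL1
      nlinarith
    have hlC : l ^ C ≤ L ^ C := pow_le_pow_left₀ hl0.le hlL _
    have hlC0 : 0 < l ^ C := by positivity
    have hLC0 : 0 < L ^ C := by positivity
    have hlow : √(N : ℝ) / L ^ (C + U) ≤ (n : ℝ) - m := by
      refine le_trans ?_ hn2
      rw [div_le_div_iff₀ (by positivity) hlC0]
      calc √(N : ℝ) * l ^ C ≤ (√(b : ℝ) * L ^ U) * L ^ C := by
            apply mul_le_mul hbig hlC hlC0.le (by positivity)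
        _ = √(b : ℝ) * L ^ (C + U) := by rw [pow_add]; ring
    have hsN : √(N : ℝ) = (N : ℝ) ^ (1 / 2 : ℝ) := Real.sqrt_eq_rpow _
    have hrt : Pool.Agent.TH204.WR.rt 1 N = √(N : ℝ) := by
      unfold Pool.Agent.TH204.WR.rt
      rw [hsN]
      norm_num
    obtain ⟨hpos, hwin⟩ := hB3 (b : ℤ) hbm (fun h => hcon (by exact_mod_cast h)) (fun p hp => by rw [rho_eq]; exact rho_lt b p hp) z
      (by
        rw [← hL]
        refine t4.trans (le_trans (Real.exp_le_exp.2 ?_) hz1)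
        apply pow_le_pow_left₀
        · apply Real.log_nonneg
          linarith
        · exact Real.log_le_log (by linarith) hl2)
      ((Nat.pow_le_pow_right hz0 (by norm_num)).trans (hz2.trans hbN.2))
    have hmain := (hwin (m : ℤ) (n : ℤ) (by exact_mod_cast hmn) (by
      intro i hi
      rw [mem_Ioc] at hi
      obtain ⟨a, rfl⟩ : ∃ a : ℕ, i = (a : ℤ) := ⟨i.toNat, by omega⟩
      have ha1 : m < a := by exact_mod_cast hi.1
      have ha2 : a ≤ n := by exact_mod_cast hi.2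
      rw [eval_sq]
      constructor
      · have h3 : 1 ≤ a := by omega
        have h4 : (1 : ℤ) ≤ (a : ℤ) ^ 2 := by
          have : (1 : ℤ) ≤ a := by exact_mod_cast h3
          nlinarith
        have h5 : (1 : ℤ) ≤ b := by exact_mod_cast hbN.1
        linarith
      · rw [hrt, pow_one, ← hL]
        have ha3 : (a : ℝ) ≤ √b * L ^ C := by
          have : (a : ℝ) ≤ n := by exact_mod_cast ha2
          exact this.trans (hn1.trans (mul_le_mul_of_nonneg_left hlC (Real.sqrt_nonneg _)))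
        have ha4 : (a : ℝ) ^ 2 ≤ b * (L ^ C) ^ 2 := by
          have := pow_le_pow_left₀ (Nat.cast_nonneg a) ha3 2
          rwa [mul_pow, Real.sq_sqrt hbr.le] at this
        have hLC1 : 1 ≤ (L ^ C) ^ 2 := one_le_pow₀ (one_le_pow₀ hL1)
        push_cast
        have h6 : (a : ℝ) ^ 2 + b ≤ N * (2 * (L ^ C) ^ 2) := by nlinarith
        refine h6.trans ?_
        have h7 : √(N : ℝ) * √(N : ℝ) = N := Real.mul_self_sqrt hNr.le
        calc (N : ℝ) * (2 * (L ^ C) ^ 2) = (√(N : ℝ) / L ^ (C + U)) * (√(N : ℝ) * (2 * (L ^ C) ^ 2 * L ^ (C + U))) := by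
              have : 0 < L ^ (C + U) := by positivity
              field_simp
              nlinarith
          _ ≤ ((n : ℝ) - m) * (√(N : ℝ) * L ^ (U + 3 * C + 1)) := by
              apply mul_le_mul hlow _ (by positivity) (le_trans (by positivity) hlow)
              apply mul_le_mul_of_nonneg_left _ (Real.sqrt_nonneg _)
              have e : L ^ (U + 3 * C + 1) = L * ((L ^ C) ^ 2 * L ^ (C + U)) := by ring
              rw [e]
              have : 0 ≤ (L ^ C) ^ 2 * L ^ (C + U) := by positivity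
              nlinarith)).1 (by
      rw [← hL]
      push_cast
      refine le_trans ?_ hlow
      rw [le_div_iff₀ (by positivity), ← pow_add, hsN]
      refine le_trans (le_of_eq ?_) t3
      congr 1
      ring)
    rw [primes_eq, M_eq, S_eq] at hmain
    exact hmain
  · intro a _ b _ h
    exact Nat.cast_injective (R := ℤ) h

/-- Let good mean: the formula of Hardy and Littlewood holds for the number of the primes `a² + b`, `m < a ≤ n`, up to a
relative error of at most `ε`, for ALL intervals `(m, n]` with `n ≤ √b log ^ C b` and `n - m ≥ √b / log ^ C b`.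

* Let `0 < θ < 1`. There is `κ₀ > 0` such that for all `A`, `C`, `U`, `ε > 0` and all large `N` there is a set `E` of
  real numbers of measure at most `N ^ (1 - θ - κ₀)` such that for all `y ∉ E` with
  `N ^ (1 - θ) ≤ y ≤ 2 N ^ (1 - θ)`: for all `k ≤ N ^ θ`, with at most `N ^ θ / log ^ U N` exceptions, ALL `b` with
  `|b - k y| ≤ log ^ A N` are good.
* Let `v` be an arbitrary sequence of natural numbers with `v k ≥ k ^ c` for all large `k`, where `c > 0`. For almost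
  every real number `α > 0` the following holds for all `A`, `C`, `U` and `j`: for all large `K` and for all `k ≤ K`
  with at most `K / log ^ U K` exceptions ALL `b` with `|b - α v k| ≤ log ^ A (v k)` are good with `ε = 1 / (j + 1)`.
* Let `v k ≥ exp (k ^ δ)` for all large `k`, where `δ > 0`. For almost every real number `α > 0` and all `A`, `C`, `j`:
  for ALL large `k` ALL `b` with `|b - α v k| ≤ log ^ A (v k)` are good with `ε = 1 / (j + 1)`. -/
theorem result :
    (∀ θ : ℝ, 0 < θ → θ < 1 → ∃ κ₀ : ℝ, 0 < κ₀ ∧ ∀ (A C U : ℕ) (ε : ℝ), 0 < ε → ∃ N₀ : ℕ, ∀ N : ℕ, N₀ ≤ N →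
      ∃ E : Set ℝ, MeasurableSet E ∧ volume E ≤ ENNReal.ofReal ((N : ℝ) ^ (1 - θ - κ₀)) ∧
        ∀ y : ℝ, (N : ℝ) ^ (1 - θ) ≤ y → y ≤ 2 * (N : ℝ) ^ (1 - θ) → y ∉ E →
          (exceptions ⌊(N : ℝ) ^ θ⌋₊ (fun k => AllGood ε C (Real.log N ^ A) (k * y)) : ℝ) ≤
            (N : ℝ) ^ θ / Real.log N ^ U) ∧
    (∀ (v : ℕ → ℕ) (c : ℝ), 0 < c → (∀ᶠ k : ℕ in atTop, (k : ℝ) ^ c ≤ v k) →
      ∀ᵐ α : ℝ, 0 < α → ∀ A C U j : ℕ, ∀ᶠ K : ℕ in atTop,
        (exceptions K (fun k => AllGood (1 / ((j : ℝ) + 1)) C (Real.log (v k) ^ A) (α * v k)) : ℝ) ≤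
          K / Real.log K ^ U) ∧
    (∀ (v : ℕ → ℕ) (δ : ℝ), 0 < δ → (∀ᶠ k : ℕ in atTop, Real.exp ((k : ℝ) ^ δ) ≤ v k) →
      ∀ᵐ α : ℝ, 0 < α → ∀ A C j : ℕ, ∀ᶠ k : ℕ in atTop,
        AllGood (1 / ((j : ℝ) + 1)) C (Real.log (v k) ^ A) (α * v k)) := by
  classical
  refine ⟨?_, ?_, ?_⟩
  · intro θ hθ hθ1
    obtain ⟨κ₀, hκ₀, h⟩ := Pool.Agent.Q319.DR.mult_few θ hθ hθ1
    refine ⟨κ₀, hκ₀, fun A C U ε hε => ?_⟩
    obtain ⟨N₀, h0⟩ := h _ (sparse ε hε C) A U
    refine ⟨N₀, fun N hN => ?_⟩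
    obtain ⟨E, hE1, hE2, hE3⟩ := h0 N hN
    refine ⟨E, hE1, hE2, fun y hy1 hy2 hyE => le_trans ?_ (hE3 y hy1 hy2 hyE)⟩
    unfold exceptions
    apply Nat.cast_le.2
    apply card_le_card
    intro k hk
    rw [mem_filter] at hk ⊢
    obtain ⟨hk1, hk2⟩ := hk
    unfold AllGood at hk2
    push Not at hk2
    obtain ⟨b, hb1, hb2⟩ := hk2
    exact ⟨hk1, b, hb1, hb2⟩
  · intro v c hc hv
    have h1 : ∀ᵐ α : ℝ, ∀ A C U j : ℕ, 0 < α → ∀ᶠ K : ℕ in atTop,
        (Pool.Agent.Q56.DR.cnt (fun _ b => ¬ Good (1 / ((j : ℝ) + 1)) C b) A v α K : ℝ) ≤ K / Real.log K ^ U := by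
      rw [ae_all_iff]
      intro A
      rw [ae_all_iff]
      intro C
      rw [ae_all_iff]
      intro U
      rw [ae_all_iff]
      intro j
      exact Pool.Agent.Q56.DR.seq_few _ (sparse (1 / ((j : ℝ) + 1)) (by positivity) C) A U v c hc hv
    filter_upwards [h1] with α hα hα0 A C U j
    filter_upwards [hα A C U j hα0] with K hK
    refine le_trans ?_ hK
    unfold exceptions Pool.Agent.Q56.DR.cnt
    apply Nat.cast_le.2
    apply card_le_card
    intro k hk
    rw [mem_filter] at hk ⊢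
    obtain ⟨hk1, hk2⟩ := hk
    unfold AllGood at hk2
    push Not at hk2
    obtain ⟨b, hb1, hb2⟩ := hk2
    exact ⟨hk1, b, hb1, hb2⟩
  · intro v δ hδ hv
    have h1 : ∀ᵐ α : ℝ, ∀ C : ℕ, 0 < α → ∀ A j : ℕ, ∀ᶠ k : ℕ in atTop,
        ∀ b : ℕ, |(b : ℝ) - α * v k| ≤ Real.log (v k) ^ A → ¬ ¬ Good (1 / ((j : ℝ) + 1)) C b := by
      rw [ae_all_iff]
      intro C
      exact Pool.Agent.Q319.DR.lac_all_count (fun j _ b => ¬ Good (1 / ((j : ℝ) + 1)) C b) (fun j =>
        sparse (1 / ((j : ℝ) + 1)) (by positivity) C) v δ hδ hv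
    filter_upwards [h1] with α hα hα0 A C j
    filter_upwards [hα C hα0 A j] with k hk b hb
    exact not_not.1 (hk b hb)

end Pool.Agent.Results.MP_7169d5_nt.ShiftsAtRealMultiples
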